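import Pool.Agent.J6H9.PL.Stm

/-!
# Near a point different from the origin a piecewise linear cone is a product with a line
-/

set_option autoImplicit false

open Filter Topology
open Pool.Agent.J6H45.CoordRestr

namespace Pool.Agent.J6H94.PL.Ray

open Pool.Agent.J6H9.PL

theorem main (h : S_Germ) : S_Ray := by
  intro n A hA hS p hp
  have hPL : IsPL A := by
    obtain ⟨S, hf, hS⟩ := hS
    intro q
    refine ⟨(fun L => (L, (0 : E n))) '' S, hf.image _, Filter.Eventually.of_forall fun x => ?_⟩
    obtain ⟨L, hL, hx⟩ := hS x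
    exact ⟨(L, 0), ⟨L, hL, rfl⟩, by simpa using hx⟩
  obtain ⟨B, hBh, hBl, hB⟩ := h n A hPL p
  have key : ∀ (v : E n) (s : ℝ), B (v + s • p) = B v + s • A p := by
    intro v s
    have c1 : Tendsto (fun t : ℝ => t • (v + s • p)) (𝓝 0) (𝓝 0) := by
      have : Continuous fun t : ℝ => t • (v + s • p) := by fun_prop
      simpa using this.tendsto 0
    have c3 : Tendsto (fun t : ℝ => 1 + t * s) (𝓝 0) (𝓝 1) := by
      have : Continuous fun t : ℝ => 1 + t * s := by fun_prop
      simpa using this.tendsto 0
    have c2 : Tendsto (fun t : ℝ => (t / (1 + t * s)) • v) (𝓝 0) (𝓝 0) := by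
      have h1 : Tendsto (fun t : ℝ => t / (1 + t * s)) (𝓝 0) (𝓝 (0 / 1)) :=
        Tendsto.div tendsto_id c3 one_ne_zero
      have h2 := h1.smul_const v
      simpa using h2
    have e1 := c1.eventually hB
    have e2 := c2.eventually hB
    have e3 : ∀ᶠ t : ℝ in 𝓝 0, 0 < 1 + t * s := c3.eventually (lt_mem_nhds zero_lt_one)
    obtain ⟨t, ⟨⟨h1, h2⟩, h3⟩, h4⟩ :=
      ((((e1.and e2).and e3).filter_mono (nhdsWithin_le_nhds (s := Set.Ioi (0 : ℝ)))).and
        self_mem_nhdsWithin).exists
    have h4' : 0 < t := h4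
    have hc : 0 < t / (1 + t * s) := div_pos h4' h3
    have e4 : p + t • (v + s • p) = (1 + t * s) • (p + (t / (1 + t * s)) • v) := by
      rw [smul_add (1 + t * s), smul_smul (1 + t * s), mul_div_cancel₀ _ h3.ne', add_smul, one_smul,
        smul_add, smul_smul]
      abel
    rw [e4, hA _ _ h3.le, h2, hBh _ _ hc.le, hBh _ _ h4'.le, smul_add (1 + t * s),
      smul_smul (1 + t * s), mul_div_cancel₀ _ h3.ne', add_smul, one_smul] at h1
    have h5 : t • B (v + s • p) = t • (B v + s • A p) := by
      rw [smul_add, smul_smul]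
      have h6 : A p + (t • B (v + s • p)) = A p + (t • B v + (t * s) • A p) := by
        rw [← h1]; abel
      exact add_left_cancel h6
    exact smul_right_injective (E n) h4'.ne' h5
  refine ⟨B, hBh, hBl, key, ?_⟩
  have c4 : Tendsto (fun x : E n => x - p) (𝓝 p) (𝓝 0) := by
    have : Continuous fun x : E n => x - p := by fun_prop
    simpa using this.tendsto p
  filter_upwards [c4.eventually hB] with x hx
  have h7 := key (x - p) 1
  rw [one_smul, one_smul, sub_add_cancel] at h7
  rw [add_sub_cancel] at hx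
  rw [hx, h7, add_comm]

end Pool.Agent.J6H94.PL.Ray
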